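import Mathlib

/-!
# Layered random list colouring

An abstract list colouring lemma: every vertex has few neighbours (avoided greedily) and possibly
many thin neighbours, whose ranks are controlled by an exponential weight.  The colours are
distributed over `D` layers at random and every vertex uses the first layer after its rank in which
it has many colours and all its thin neighbours are already coloured.
-/

namespace Pool.Agent.K4H79.LC

open Finset

set_option linter.unusedSectionVars false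

section Layer

variable {V α : Type} [Fintype V] [DecidableEq V] [Fintype α] [DecidableEq α]

/-- the penalty of the vertex `v` in the layer `j` -/
noncomputable def pen (c D : ℕ) (L : V → Finset α) (κ : α → Fin D) (j : ℕ) (v : V) : ℝ :=
  2 ^ c * ∏ x : α, (if ((κ x : ℕ) = j ∧ x ∈ L v) then (1 / 2 : ℝ) else 1)

/-- the colours of the list of `v` in the layer `j` -/
def lay (D : ℕ) (L : V → Finset α) (κ : α → Fin D) (j : ℕ) (v : V) : Finset α :=
  (L v).filter (fun x => (κ x : ℕ) = j)

lemma pen_nonneg (c D : ℕ) (L : V → Finset α) (κ : α → Fin D) (j : ℕ) (v : V) :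
    0 ≤ pen c D L κ j v := by
  unfold pen
  refine mul_nonneg (by positivity) (Finset.prod_nonneg fun x _ => ?_)
  split_ifs <;> norm_num

lemma one_le_pen (c D : ℕ) (L : V → Finset α) (κ : α → Fin D) (j : ℕ) (v : V)
    (h : (lay D L κ j v).card ≤ c) : 1 ≤ pen c D L κ j v := by
  unfold pen
  rw [Finset.prod_ite]
  simp only [Finset.prod_const, one_pow, mul_one]
  have e : (Finset.univ.filter (fun x => ((κ x : ℕ) = j ∧ x ∈ L v))) = lay D L κ j v := by
    ext x
    simp [lay, and_comm]
  rw [e]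
  have h1 : (1 / 2 : ℝ) ^ c ≤ (1 / 2 : ℝ) ^ (lay D L κ j v).card :=
    pow_le_pow_of_le_one (by norm_num) (by norm_num) h
  calc (1 : ℝ) = 2 ^ c * (1 / 2 : ℝ) ^ c := by
        rw [← mul_pow]; norm_num
    _ ≤ _ := mul_le_mul_of_nonneg_left h1 (by positivity)

/-- product of penalties for a partial choice of vertices -/
noncomputable def W (c D : ℕ) (L : V → Finset α) (g : ℕ → Option V) (κ : α → Fin D) : ℝ :=
  ∏ j ∈ range D, (g j).elim 1 (fun v => pen c D L κ j v)

/-- the number of chosen vertices -/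
def Nn (D : ℕ) (g : ℕ → Option V) : ℕ := ((range D).filter (fun j => (g j).isSome)).card

lemma W_nonneg (c D : ℕ) (L : V → Finset α) (g : ℕ → Option V) (κ : α → Fin D) :
    0 ≤ W c D L g κ := by
  unfold W
  refine Finset.prod_nonneg fun j _ => ?_
  cases h : g j with
  | none => simp
  | some v => simpa using pen_nonneg c D L κ j v

lemma W_eq (c D : ℕ) (L : V → Finset α) (g : ℕ → Option V) (κ : α → Fin D) :
    W c D L g κ = (2 ^ c) ^ (Nn D g) *
      ∏ x : α, (if x ∈ (g (κ x)).elim ∅ L then (1 / 2 : ℝ) else 1) := by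
  unfold W
  have h1 : ∀ j ∈ range D, (g j).elim 1 (fun v => pen c D L κ j v) =
      (if (g j).isSome then (2 : ℝ) ^ c else 1) *
        ∏ x : α, (if ((κ x : ℕ) = j ∧ x ∈ (g j).elim ∅ L) then (1 / 2 : ℝ) else 1) := by
    intro j _
    cases h : g j with
    | none => simp
    | some v => simp [pen]
  rw [Finset.prod_congr rfl h1, Finset.prod_mul_distrib, Finset.prod_comm]
  congr 1
  · rw [Finset.prod_ite]
    simp [Nn]
  · refine Finset.prod_congr rfl fun x _ => ?_
    rw [Finset.prod_eq_single (κ x : ℕ)]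
    · simp
    · intro b _ hb
      rw [if_neg]
      rintro ⟨h, _⟩
      exact hb h.symm
    · intro h
      exact absurd (Finset.mem_range.2 (κ x).2) h

lemma pow_half {D : ℕ} (hD : 0 < D) : (1 - 1 / (2 * D : ℝ)) ^ (2 * D) ≤ 1 / 2 := by
  have hD' : (0 : ℝ) < 2 * D := by positivity
  have h1 : (1 : ℝ) ≤ D := by exact_mod_cast hD
  set t : ℝ := 1 / (2 * D : ℝ) with ht
  have ht0 : 0 ≤ t := by positivity
  have ht1 : t ≤ 1 := by
    rw [ht, div_le_one hD']; linarith
  have hb : (1 : ℝ) + ((2 * D : ℕ) : ℝ) * t ≤ (1 + t) ^ (2 * D) :=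
    one_add_mul_le_pow (by linarith) _
  have hb2 : (2 : ℝ) ≤ (1 + t) ^ (2 * D) := by
    have : ((2 * D : ℕ) : ℝ) * t = 1 := by
      rw [ht]; push_cast; field_simp
    rw [this] at hb; linarith
  have hc : (1 - t) ^ (2 * D) * (1 + t) ^ (2 * D) ≤ 1 := by
    rw [← mul_pow]
    refine pow_le_one₀ ?_ ?_
    · nlinarith
    · nlinarith
  have hp : 0 ≤ (1 - t) ^ (2 * D) := pow_nonneg (by linarith) _
  nlinarith

lemma quarter {c D s : ℕ} (hD : 0 < D) (hs : 2 * D * (c + 2) ≤ s) :
    (2 : ℝ) ^ c * (1 - 1 / (2 * D : ℝ)) ^ s ≤ 1 / 4 := by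
  have h1 : (1 : ℝ) ≤ D := by exact_mod_cast hD
  have h0 : (0 : ℝ) ≤ 1 - 1 / (2 * D : ℝ) := by
    have : 1 / (2 * D : ℝ) ≤ 1 := by
      rw [div_le_one (by positivity)]; linarith
    linarith
  have h2 : 1 - 1 / (2 * D : ℝ) ≤ 1 := by
    have : (0 : ℝ) ≤ 1 / (2 * D : ℝ) := by positivity
    linarith
  have h3 : (1 - 1 / (2 * D : ℝ)) ^ s ≤ (1 / 2) ^ (c + 2) := by
    calc (1 - 1 / (2 * D : ℝ)) ^ s ≤ (1 - 1 / (2 * D : ℝ)) ^ (2 * D * (c + 2)) :=
          pow_le_pow_of_le_one h0 h2 hs
      _ = ((1 - 1 / (2 * D : ℝ)) ^ (2 * D)) ^ (c + 2) := by rw [pow_mul]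
      _ ≤ (1 / 2) ^ (c + 2) := pow_le_pow_left₀ (pow_nonneg h0 _) (pow_half hD) _
  calc (2 : ℝ) ^ c * (1 - 1 / (2 * D : ℝ)) ^ s ≤ 2 ^ c * (1 / 2) ^ (c + 2) :=
        mul_le_mul_of_nonneg_left h3 (by positivity)
    _ = 1 / 4 := by
        rw [pow_add, ← mul_assoc, ← mul_pow]; norm_num

/-- the basic moment estimate -/
lemma base (c D s : ℕ) (L : V → Finset α) (hD : 0 < D) (hs : 2 * D * (c + 2) ≤ s)
    (hL : ∀ v, s ≤ (L v).card) (g : ℕ → Option V) :
    ∑ κ : α → Fin D, W c D L g κ ≤ (D : ℝ) ^ (Fintype.card α) * (1 / 4) ^ (Nn D g) := by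
  have h1 : (1 : ℝ) ≤ D := by exact_mod_cast hD
  set t : ℝ := 1 - 1 / (2 * D : ℝ) with ht
  have h0 : (0 : ℝ) ≤ t := by
    have : 1 / (2 * D : ℝ) ≤ 1 := by
      rw [div_le_one (by positivity)]; linarith
    linarith
  have h2 : t ≤ 1 := by
    have : (0 : ℝ) ≤ 1 / (2 * D : ℝ) := by positivity
    linarith
  set Lg : ℕ → Finset α := fun j => (g j).elim ∅ L with hLg
  -- number of layers in which a colour is used
  set kk : α → ℕ := fun x => (Finset.univ.filter (fun j : Fin D => x ∈ Lg j)).card with hkk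
  have e1 : ∑ κ : α → Fin D, W c D L g κ = (2 ^ c) ^ (Nn D g) *
      ∏ x : α, ∑ j : Fin D, (if x ∈ Lg j then (1 / 2 : ℝ) else 1) := by
    rw [Finset.prod_univ_sum, Finset.mul_sum, Fintype.piFinset_univ]
    refine Finset.sum_congr rfl fun κ _ => ?_
    rw [W_eq]
  have e2 : ∀ x : α, ∑ j : Fin D, (if x ∈ Lg j then (1 / 2 : ℝ) else 1) ≤ D * t ^ (kk x) := by
    intro x
    have e3 : ∑ j : Fin D, (if x ∈ Lg j then (1 / 2 : ℝ) else 1) = D - (kk x : ℝ) / 2 := by
      have : ∀ j : Fin D, (if x ∈ Lg j then (1 / 2 : ℝ) else 1) =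
          1 - (1 / 2) * (if x ∈ Lg j then (1 : ℝ) else 0) := by
        intro j; split_ifs <;> norm_num
      rw [Finset.sum_congr rfl (fun j _ => this j), Finset.sum_sub_distrib, ← Finset.mul_sum]
      simp [hkk]
      ring
    rw [e3]
    have hb : (1 : ℝ) + (kk x : ℝ) * (-(1 / (2 * D : ℝ))) ≤ (1 + (-(1 / (2 * D : ℝ)))) ^ (kk x) := by
      refine one_add_mul_le_pow ?_ _
      have : 1 / (2 * D : ℝ) ≤ 1 := by
        rw [div_le_one (by positivity)]; linarith
      linarith
    have hb' : (1 : ℝ) + (kk x : ℝ) * (-(1 / (2 * D : ℝ))) ≤ t ^ (kk x) := by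
      simpa [ht, sub_eq_add_neg] using hb
    calc (D : ℝ) - (kk x : ℝ) / 2 = D * (1 + (kk x : ℝ) * (-(1 / (2 * D : ℝ)))) := by
          field_simp
          ring
      _ ≤ D * t ^ (kk x) := mul_le_mul_of_nonneg_left hb' (by linarith)
  have e4 : s * Nn D g ≤ ∑ x : α, kk x := by
    have : ∑ x : α, kk x = ∑ j : Fin D, (Lg j).card := by
      simp only [hkk, Finset.card_filter]
      rw [Finset.sum_comm]
      refine Finset.sum_congr rfl fun j _ => ?_
      rw [Finset.card_eq_sum_ones, ← Finset.sum_filter]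
      simp
    rw [this]
    have e5 : Nn D g = (Finset.univ.filter (fun j : Fin D => (g j).isSome)).card := by
      unfold Nn
      rw [Finset.card_filter, Finset.card_filter, Finset.sum_range]
    rw [e5, mul_comm, ← smul_eq_mul, ← Finset.sum_const, Finset.sum_filter]
    refine Finset.sum_le_sum fun j _ => ?_
    split_ifs with h
    · obtain ⟨v, hv⟩ := Option.isSome_iff_exists.1 h
      simp only [hLg, hv, Option.elim]
      exact hL v
    · exact Nat.zero_le _
  rw [e1]
  have e6 : ∏ x : α, ∑ j : Fin D, (if x ∈ Lg j then (1 / 2 : ℝ) else 1) ≤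
      (D : ℝ) ^ (Fintype.card α) * t ^ (s * Nn D g) := by
    calc ∏ x : α, ∑ j : Fin D, (if x ∈ Lg j then (1 / 2 : ℝ) else 1)
        ≤ ∏ x : α, (D * t ^ (kk x)) := by
          refine Finset.prod_le_prod (fun x _ => Finset.sum_nonneg fun j _ => ?_)
            (fun x _ => e2 x)
          split_ifs <;> norm_num
      _ = (D : ℝ) ^ (Fintype.card α) * t ^ (∑ x : α, kk x) := by
          rw [Finset.prod_mul_distrib, Finset.prod_const, Finset.prod_pow_eq_pow_sum,
            Finset.card_univ]
      _ ≤ _ := mul_le_mul_of_nonneg_left (pow_le_pow_of_le_one h0 h2 e4) (by positivity)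
  have e7 : (((2 : ℝ) ^ c) ^ (Nn D g)) * t ^ (s * Nn D g) ≤ (1 / 4) ^ (Nn D g) := by
    rw [pow_mul, ← mul_pow]
    exact pow_le_pow_left₀ (mul_nonneg (by positivity) (pow_nonneg h0 _)) (quarter hD hs) _
  calc ((2 : ℝ) ^ c) ^ (Nn D g) * ∏ x : α, ∑ j : Fin D, (if x ∈ Lg j then (1 / 2 : ℝ) else 1)
      ≤ ((2 : ℝ) ^ c) ^ (Nn D g) * ((D : ℝ) ^ (Fintype.card α) * t ^ (s * Nn D g)) :=
        mul_le_mul_of_nonneg_left e6 (by positivity)
    _ = (D : ℝ) ^ (Fintype.card α) * ((((2 : ℝ) ^ c) ^ (Nn D g)) * t ^ (s * Nn D g)) := by ring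
    _ ≤ _ := mul_le_mul_of_nonneg_left e7 (by positivity)

/-- the recursive upper bound for the probability that `v` is uncoloured before layer `l` -/
noncomputable def X (c D : ℕ) (L : V → Finset α) (ρ : V → ℕ) (Thin : V → Finset V)
    (κ : α → Fin D) : ℕ → V → ℝ
  | 0, _ => 1
  | (l + 1), v => if l < ρ v then 1 else
      pen c D L κ l v * X c D L ρ Thin κ l v + ∑ u ∈ Thin v, X c D L ρ Thin κ l u

/-- `v` is uncoloured before layer `l` -/
def unc (c D : ℕ) (L : V → Finset α) (ρ : V → ℕ) (Thin : V → Finset V)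
    (κ : α → Fin D) : ℕ → V → Prop
  | 0, _ => True
  | (l + 1), v => unc c D L ρ Thin κ l v ∧
      (l < ρ v ∨ (lay D L κ l v).card ≤ c ∨ ∃ u ∈ Thin v, unc c D L ρ Thin κ l u)

lemma X_nonneg (c D : ℕ) (L : V → Finset α) (ρ : V → ℕ) (Thin : V → Finset V)
    (κ : α → Fin D) (l : ℕ) : ∀ v, 0 ≤ X c D L ρ Thin κ l v := by
  induction l with
  | zero => intro v; simp [X]
  | succ l ih =>
    intro v
    rw [X]
    split_ifs
    · norm_num
    · exact add_nonneg (mul_nonneg (pen_nonneg _ _ _ _ _ _) (ih v))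
        (Finset.sum_nonneg fun u _ => ih u)

lemma unc_le_X (c D : ℕ) (L : V → Finset α) (ρ : V → ℕ) (Thin : V → Finset V)
    (κ : α → Fin D) (l : ℕ) : ∀ v, unc c D L ρ Thin κ l v → 1 ≤ X c D L ρ Thin κ l v := by
  induction l with
  | zero => intro v _; simp [X]
  | succ l ih =>
    intro v hv
    rw [unc] at hv
    rw [X]
    split_ifs with h
    · exact le_refl _
    · obtain ⟨h1, h2⟩ := hv
      rcases h2 with h2 | h2 | ⟨u, hu, h2⟩
      · exact absurd h2 h
      · have a1 := ih v h1
        have a2 := one_le_pen c D L κ l v h2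
        have a3 : 0 ≤ ∑ u ∈ Thin v, X c D L ρ Thin κ l u :=
          Finset.sum_nonneg fun u _ => X_nonneg _ _ _ _ _ _ _ _
        nlinarith
      · have a1 : X c D L ρ Thin κ l u ≤ ∑ u ∈ Thin v, X c D L ρ Thin κ l u :=
          Finset.single_le_sum (f := fun u => X c D L ρ Thin κ l u)
            (fun u _ => X_nonneg _ _ _ _ _ _ _ _) hu
        have a2 := ih u h2
        have a3 : 0 ≤ pen c D L κ l v * X c D L ρ Thin κ l v :=
          mul_nonneg (pen_nonneg _ _ _ _ _ _) (X_nonneg _ _ _ _ _ _ _ _)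
        linarith

lemma W_update (c D : ℕ) (L : V → Finset α) (g : ℕ → Option V) (κ : α → Fin D) {l : ℕ}
    (hl : l < D) (hg : g l = none) (v : V) :
    W c D L (Function.update g l (some v)) κ = pen c D L κ l v * W c D L g κ := by
  unfold W
  rw [← Finset.mul_prod_erase _ _ (Finset.mem_range.2 hl),
    ← Finset.mul_prod_erase (range D) (fun j => (g j).elim 1 (fun v => pen c D L κ j v))
      (Finset.mem_range.2 hl)]
  simp only [Function.update_self, Option.elim, hg, one_mul]
  congr 1
  refine Finset.prod_congr rfl fun j hj => ?_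
  rw [Function.update_of_ne (Finset.ne_of_mem_erase hj)]

lemma Nn_update (D : ℕ) (g : ℕ → Option V) {l : ℕ} (hl : l < D) (hg : g l = none) (v : V) :
    Nn D (Function.update g l (some v)) = Nn D g + 1 := by
  unfold Nn
  rw [← Finset.card_insert_of_notMem (s := (range D).filter (fun j => (g j).isSome)) (a := l)]
  · congr 1
    ext j
    by_cases hj : j = l
    · subst hj; simp [hl]
    · simp [hj]
  · simp [hg]

/-- the main estimate -/
theorem claim (c D s : ℕ) (L : V → Finset α) (ρ : V → ℕ) (Thin : V → Finset V)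
    (hD : 0 < D) (hs : 2 * D * (c + 2) ≤ s) (hL : ∀ v, s ≤ (L v).card)
    (hthin : ∀ v, 4 * ∑ u ∈ Thin v, 2 ^ ρ u ≤ 2 ^ ρ v) (l : ℕ) (hl : l ≤ D) :
    ∀ (v : V) (g : ℕ → Option V), (∀ j < l, g j = none) →
      ∑ κ : α → Fin D, X c D L ρ Thin κ l v * W c D L g κ ≤
        (D : ℝ) ^ (Fintype.card α) * ((1 / 2) ^ (l - ρ v) * (1 / 4) ^ (Nn D g)) := by
  induction l with
  | zero =>
    intro v g _
    simpa [X] using base c D s L hD hs hL g
  | succ l ih =>
    intro v g hg
    by_cases hlv : l < ρ v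
    · have e : l + 1 - ρ v = 0 := by omega
      rw [e]
      simpa [X, hlv] using base c D s L hD hs hL g
    · have hlv' : ρ v ≤ l := not_lt.1 hlv
      have hgl : g l = none := hg l (Nat.lt_succ_self l)
      have hlD : l < D := hl
      have ih' := ih (Nat.le_of_succ_le hl)
      have hg' : ∀ j < l, g j = none := fun j hj => hg j (Nat.lt_succ_of_lt hj)
      have h1 : ∑ κ : α → Fin D, X c D L ρ Thin κ (l + 1) v * W c D L g κ =
          ∑ κ : α → Fin D, X c D L ρ Thin κ l v * W c D L (Function.update g l (some v)) κ +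
            ∑ u ∈ Thin v, ∑ κ : α → Fin D, X c D L ρ Thin κ l u * W c D L g κ := by
        rw [Finset.sum_comm, ← Finset.sum_add_distrib]
        refine Finset.sum_congr rfl fun κ _ => ?_
        rw [X, if_neg hlv, W_update c D L g κ hlD hgl v, add_mul, Finset.sum_mul]
        ring
      rw [h1]
      have h2 := ih' v (Function.update g l (some v)) (by
        intro j hj
        rw [Function.update_of_ne (ne_of_lt hj)]
        exact hg' j hj)
      rw [Nn_update D g hlD hgl v] at h2
      have h3 : ∑ u ∈ Thin v, ∑ κ : α → Fin D, X c D L ρ Thin κ l u * W c D L g κ ≤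
          ∑ u ∈ Thin v, (D : ℝ) ^ (Fintype.card α) * ((1 / 2) ^ (l - ρ u) * (1 / 4) ^ (Nn D g)) :=
        Finset.sum_le_sum fun u _ => ih' u g hg'
      have h4 : ∑ u ∈ Thin v, (1 / 2 : ℝ) ^ (l - ρ u) ≤ (1 / 2) ^ (l - ρ v) * (1 / 4) := by
        have h5 : ∀ u ∈ Thin v, (1 / 2 : ℝ) ^ (l - ρ u) =
            (1 / 2) ^ (l - ρ v) * (2 ^ ρ u / 2 ^ ρ v) := by
          intro u hu
          have h6 : 2 ^ ρ u ≤ 2 ^ ρ v := by
            have h7 : 2 ^ ρ u ≤ ∑ u ∈ Thin v, 2 ^ ρ u :=
              Finset.single_le_sum (f := fun u => 2 ^ ρ u) (fun _ _ => Nat.zero_le _) hu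
            have := hthin v
            omega
          have h8 : ρ u ≤ ρ v := (Nat.pow_le_pow_iff_right (by norm_num)).1 h6
          have h9 : l - ρ u = (l - ρ v) + (ρ v - ρ u) := by omega
          rw [h9, pow_add]
          congr 1
          obtain ⟨d, hd⟩ := Nat.exists_eq_add_of_le h8
          rw [hd]
          have : ρ u + d - ρ u = d := by omega
          rw [this, pow_add, one_div, inv_pow]
          have h10 : (2 : ℝ) ^ ρ u ≠ 0 := by positivity
          field_simp
        rw [Finset.sum_congr rfl h5, ← Finset.mul_sum, ← Finset.sum_div]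
        refine mul_le_mul_of_nonneg_left ?_ (by positivity)
        rw [div_le_iff₀ (by positivity)]
        have := hthin v
        have h11 : (4 : ℝ) * ∑ u ∈ Thin v, (2 : ℝ) ^ ρ u ≤ 2 ^ ρ v := by
          exact_mod_cast this
        linarith
      have h12 : ∑ u ∈ Thin v, (D : ℝ) ^ (Fintype.card α) *
          ((1 / 2) ^ (l - ρ u) * (1 / 4) ^ (Nn D g)) ≤
          (D : ℝ) ^ (Fintype.card α) * (((1 / 2) ^ (l - ρ v) * (1 / 4)) * (1 / 4) ^ (Nn D g)) := by
        rw [← Finset.mul_sum, ← Finset.sum_mul]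
        exact mul_le_mul_of_nonneg_left (mul_le_mul_of_nonneg_right h4 (by positivity))
          (by positivity)
      have h13 : l + 1 - ρ v = (l - ρ v) + 1 := by omega
      rw [h13, pow_succ]
      rw [pow_succ] at h2
      calc _ ≤ (D : ℝ) ^ (Fintype.card α) * ((1 / 2) ^ (l - ρ v) * ((1 / 4) ^ (Nn D g) * (1 / 4))) +
            (D : ℝ) ^ (Fintype.card α) * (((1 / 2) ^ (l - ρ v) * (1 / 4)) * (1 / 4) ^ (Nn D g)) :=
            add_le_add h2 (h3.trans h12)
        _ = _ := by ring

/-- **Layered list colouring.** -/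
theorem exists_colouring (c D s : ℕ) (L : V → Finset α) (ρ τ : V → ℕ)
    (Few Thin : V → Finset V) (hs : 2 * D * (c + 2) ≤ s) (hL : ∀ v, s ≤ (L v).card)
    (hfew : ∀ v, (Few v).card ≤ c) (hτ : ∀ v, ∀ u ∈ Few v, τ u < τ v)
    (hthin : ∀ v, 4 * ∑ u ∈ Thin v, 2 ^ ρ u ≤ 2 ^ ρ v)
    (hD : ∀ v, Fintype.card V * 2 ^ ρ v < 2 ^ D) :
    ∃ f : V → α, (∀ v, f v ∈ L v) ∧ ∀ v, ∀ u ∈ Few v ∪ Thin v, f u ≠ f v := by
  classical
  rcases isEmpty_or_nonempty V with hV | hV
  · exact ⟨fun v => hV.elim v, fun v => hV.elim v, fun v => hV.elim v⟩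
  obtain ⟨v0⟩ := hV
  have hn : 0 < Fintype.card V := Fintype.card_pos_iff.2 ⟨v0⟩
  have hD0 : 0 < D := by
    rcases Nat.eq_zero_or_pos D with h | h
    · have h1 := hD v0
      rw [h, pow_zero] at h1
      have h2 : 0 < 2 ^ ρ v0 := by positivity
      nlinarith
    · exact h
  -- a good distribution of the colours
  have key : ∃ κ : α → Fin D, ∑ v : V, X c D L ρ Thin κ D v < 1 := by
    by_contra hcon
    push Not at hcon
    have h1 : (D : ℝ) ^ (Fintype.card α) ≤ ∑ κ : α → Fin D, ∑ v : V, X c D L ρ Thin κ D v := by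
      calc (D : ℝ) ^ (Fintype.card α) = ∑ κ : α → Fin D, (1 : ℝ) := by
            simp
        _ ≤ _ := Finset.sum_le_sum fun κ _ => hcon κ
    have h2 : ∑ κ : α → Fin D, ∑ v : V, X c D L ρ Thin κ D v <
        (D : ℝ) ^ (Fintype.card α) := by
      rw [Finset.sum_comm]
      have h3 : ∀ v : V, ∑ κ : α → Fin D, X c D L ρ Thin κ D v ≤
          (D : ℝ) ^ (Fintype.card α) * (1 / 2) ^ (D - ρ v) := by
        intro v
        have := claim c D s L ρ Thin hD0 hs hL hthin D le_rfl v (fun _ => none) (fun _ _ => rfl)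
        simpa [W, Nn] using this
      have h4 : ∀ v : V, (1 / 2 : ℝ) ^ (D - ρ v) < 1 / (Fintype.card V : ℝ) := by
        intro v
        have h5 := hD v
        have h6 : ρ v ≤ D := by
          have : 2 ^ ρ v < 2 ^ D := by
            calc 2 ^ ρ v = 1 * 2 ^ ρ v := by ring
              _ ≤ Fintype.card V * 2 ^ ρ v := Nat.mul_le_mul_right _ hn
              _ < 2 ^ D := h5
          exact ((Nat.pow_lt_pow_iff_right (by norm_num)).1 this).le
        obtain ⟨d, hd⟩ := Nat.exists_eq_add_of_le h6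
        have h7 : D - ρ v = d := by omega
        rw [h7]
        have h8 : Fintype.card V < 2 ^ d := by
          rw [hd, pow_add] at h5
          have h9 : 0 < 2 ^ ρ v := by positivity
          by_contra hc
          push Not at hc
          have := Nat.mul_le_mul_right (2 ^ ρ v) hc
          have h10 : 2 ^ ρ v * 2 ^ d = 2 ^ d * 2 ^ ρ v := Nat.mul_comm _ _
          omega
        have h11 : (Fintype.card V : ℝ) < 2 ^ d := by exact_mod_cast h8
        have h12 : (0 : ℝ) < Fintype.card V := by exact_mod_cast hn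
        rw [one_div, inv_pow, one_div]
        exact inv_strictAnti₀ h12 h11
      have hDp : (0 : ℝ) < (D : ℝ) ^ (Fintype.card α) := by positivity
      calc ∑ v : V, ∑ κ : α → Fin D, X c D L ρ Thin κ D v
          ≤ ∑ v : V, (D : ℝ) ^ (Fintype.card α) * (1 / 2) ^ (D - ρ v) :=
            Finset.sum_le_sum fun v _ => h3 v
        _ < ∑ v : V, (D : ℝ) ^ (Fintype.card α) * (1 / (Fintype.card V : ℝ)) := by
            refine Finset.sum_lt_sum_of_nonempty ⟨v0, Finset.mem_univ _⟩ fun v _ => ?_
            exact mul_lt_mul_of_pos_left (h4 v) hDp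
        _ = (D : ℝ) ^ (Fintype.card α) := by
            rw [Finset.sum_const, Finset.card_univ, nsmul_eq_mul]
            have : (Fintype.card V : ℝ) ≠ 0 := by exact_mod_cast hn.ne'
            field_simp
    linarith
  obtain ⟨κ, hκ⟩ := key
  have hall : ∀ v, ¬ unc c D L ρ Thin κ D v := by
    intro v hv
    have h1 := unc_le_X c D L ρ Thin κ D v hv
    have h2 : X c D L ρ Thin κ D v ≤ ∑ v : V, X c D L ρ Thin κ D v :=
      Finset.single_le_sum (f := fun v => X c D L ρ Thin κ D v)
        (fun v _ => X_nonneg _ _ _ _ _ _ _ _) (Finset.mem_univ v)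
    linarith
  -- the layer of every vertex
  have hlay : ∀ v, ∃ l, unc c D L ρ Thin κ l v ∧ ¬ unc c D L ρ Thin κ (l + 1) v := by
    intro v
    by_contra hcon
    push Not at hcon
    have : ∀ l, unc c D L ρ Thin κ l v := by
      intro l
      induction l with
      | zero => simp [unc]
      | succ l ih => exact hcon l ih
    exact hall v (this D)
  choose ly hly1 hly2 using hlay
  have hmono : ∀ v l l', l ≤ l' → unc c D L ρ Thin κ l' v → unc c D L ρ Thin κ l v := by
    intro v l l' h
    induction l', h using Nat.le_induction with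
    | base => exact id
    | succ m _ ih =>
      intro h
      rw [unc] at h
      exact ih h.1
  have hp : ∀ v, ρ v ≤ ly v ∧ c + 1 ≤ (lay D L κ (ly v) v).card ∧
      ∀ u ∈ Thin v, ly u < ly v := by
    intro v
    have h1 := hly2 v
    rw [unc] at h1
    have h2 : ¬ (ly v < ρ v ∨ (lay D L κ (ly v) v).card ≤ c ∨
        ∃ u ∈ Thin v, unc c D L ρ Thin κ (ly v) u) := fun h => h1 ⟨hly1 v, h⟩
    push Not at h2
    refine ⟨h2.1, h2.2.1, fun u hu => ?_⟩
    by_contra hc
    exact h2.2.2 u hu (hmono u _ _ (not_lt.1 hc) (hly1 u))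
  -- the greedy choice inside the layers
  have hex : ∃ f : V → α, ∀ v, f v ∈ lay D L κ (ly v) v ∧ ∀ u ∈ Few v, f u ≠ f v := by
    have step : ∀ m : ℕ, ∃ f : V → α, ∀ v, τ v < m →
        (f v ∈ lay D L κ (ly v) v ∧ ∀ u ∈ Few v, f u ≠ f v) := by
      intro m
      induction m with
      | zero =>
        have : Nonempty α := by
          have h1 := (hp v0).2.1
          have h2 : 0 < (lay D L κ (ly v0) v0).card := by omega
          exact ⟨(Finset.card_pos.1 h2).choose⟩
        exact ⟨fun _ => this.some, fun v hv => absurd hv (Nat.not_lt_zero _)⟩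
      | succ m ih =>
        obtain ⟨f, hf⟩ := ih
        have hch : ∀ v, ∃ x, x ∈ lay D L κ (ly v) v ∧ x ∉ (Few v).image f := by
          intro v
          have h1 : ((Few v).image f).card < (lay D L κ (ly v) v).card := by
            have := (hp v).2.1
            have h2 := hfew v
            have h3 := Finset.card_image_le (s := Few v) (f := f)
            omega
          exact Finset.exists_mem_notMem_of_card_lt_card h1
        choose ch hch1 hch2 using hch
        refine ⟨fun v => if τ v < m then f v else ch v, fun v hv => ?_⟩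
        by_cases h : τ v < m
        · obtain ⟨a1, a2⟩ := hf v h
          refine ⟨by simpa [h] using a1, fun u hu => ?_⟩
          have : τ u < m := lt_trans (hτ v u hu) h
          simpa [h, this] using a2 u hu
        · have hvm : τ v = m := by omega
          refine ⟨by simpa [h] using hch1 v, fun u hu => ?_⟩
          have : τ u < m := by
            have := hτ v u hu
            omega
          simp only [this, if_true, h, if_false]
          intro he
          exact hch2 v (Finset.mem_image.2 ⟨u, hu, he⟩)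
    obtain ⟨f, hf⟩ := step ((Finset.univ.sup τ) + 1)
    exact ⟨f, fun v => hf v (Nat.lt_succ_of_le (Finset.le_sup (Finset.mem_univ v)))⟩
  obtain ⟨f, hf⟩ := hex
  refine ⟨f, fun v => (Finset.mem_filter.1 (hf v).1).1, fun v u hu => ?_⟩
  rcases Finset.mem_union.1 hu with hu | hu
  · exact (hf v).2 u hu
  · intro he
    have h1 := (Finset.mem_filter.1 (hf v).1).2
    have h2 := (Finset.mem_filter.1 (hf u).1).2
    have h3 := (hp v).2.2 u hu
    rw [he] at h2
    omega

end Layer

end Pool.Agent.K4H79.LC
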