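import Pool.Agent.K4H79.LC.Rec
import Pool.Agent.K4H79.LC.Layer

/-!
# Rectangle hypergraphs are `O(log n)`-choosable: the version for families of rectangles
-/

namespace Pool.Agent.K4H79.LC

open Finset

/-- the colouring of a family of rectangles from lists of size `1364 k`, `n < 2 ^ k` -/
theorem colour_family {V : Type} [Fintype V] (xa xb ya yb : V → ℝ) (hx : ∀ v, xa v ≤ xb v)
    (k : ℕ) (hk : Fintype.card V < 2 ^ k) (L : V → Set ℕ+)
    (hL : ∀ v, ((1364 * k : ℕ) : ℕ∞) ≤ (L v).encard) :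
    ∃ C : V → ℕ+, (∀ v, C v ∈ L v) ∧
      ∀ (p : ℝ × ℝ) (v w : V), v ≠ w →
        (xa v ≤ p.1 ∧ p.1 ≤ xb v ∧ ya v ≤ p.2 ∧ p.2 ≤ yb v) →
        (xa w ≤ p.1 ∧ p.1 ≤ xb w ∧ ya w ≤ p.2 ∧ p.2 ≤ yb w) →
        ∃ a b : V, (xa a ≤ p.1 ∧ p.1 ≤ xb a ∧ ya a ≤ p.2 ∧ p.2 ≤ yb a) ∧
          (xa b ≤ p.1 ∧ p.1 ≤ xb b ∧ ya b ≤ p.2 ∧ p.2 ≤ yb b) ∧ C a ≠ C b := by
  classical
  let F : Fam V :=
    { xa := xa, xb := xb, ya := ya, yb := yb, hx := hx
      idx := fun v => (Fintype.equivFin V v : ℕ)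
      hidx := fun v w h => (Fintype.equivFin V).injective (Fin.ext h) }
  obtain ⟨s, _, hgood, hbd, hcov⟩ := recursion F k Finset.univ ∅ Set.univ
    (fun _ => ⟨0, 0, ∅, ∅⟩) 0 0 (Finset.disjoint_empty_left _) (by simpa using hk) (by simp)
    (by simp) (by simp)
  -- finite lists
  have hfin : ∀ v, ∃ t : Finset ℕ+, (t : Set ℕ+) ⊆ L v ∧ t.card = 1364 * k := by
    intro v
    obtain ⟨t, ht, htc⟩ := Set.exists_subset_encard_eq (hL v)
    have htf : t.Finite := Set.finite_of_encard_eq_coe htc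
    refine ⟨htf.toFinset, by simpa using ht, ?_⟩
    rw [htf.encard_eq_coe_toFinset_card] at htc
    exact_mod_cast htc
  choose L' hL'1 hL'2 using hfin
  set 𝒞 : Finset ℕ+ := Finset.univ.biUnion L' with h𝒞
  set L'' : V → Finset {x // x ∈ 𝒞} := fun v => (L' v).subtype (fun x => x ∈ 𝒞) with hL''
  have hL''c : ∀ v, 1364 * k ≤ (L'' v).card := by
    intro v
    simp only [hL'']
    rw [Finset.card_subtype, Finset.filter_true_of_mem, hL'2 v]
    intro x hx
    rw [h𝒞, Finset.mem_biUnion]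
    exact ⟨v, Finset.mem_univ _, hx⟩
  obtain ⟨f, hf1, hf2⟩ := exists_colouring 60 (11 * k) (1364 * k) L'' (fun v => (s v).rho)
    (fun v => (s v).tau) (fun v => (s v).few) (fun v => (s v).thin) (le_of_eq (by ring)) hL''c
    (fun v => (hgood v (Finset.mem_univ v)).2.2.1)
    (fun v => (hgood v (Finset.mem_univ v)).2.2.2.1)
    (fun v => (hgood v (Finset.mem_univ v)).2.2.2.2)
    (by
      intro v
      have h1 := hbd v (Finset.mem_univ v)
      rw [zero_add, Finset.card_univ] at h1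
      have hn : 0 < Fintype.card V := Fintype.card_pos_iff.2 ⟨v⟩
      have h2 : (481 : ℕ) ^ k ≤ 2 ^ (9 * k) := by
        rw [pow_mul]; exact Nat.pow_le_pow_left (by norm_num) k
      have h3 : Fintype.card V * Fintype.card V < 2 ^ k * 2 ^ k := Nat.mul_lt_mul'' hk hk
      calc Fintype.card V * 2 ^ (s v).rho
          ≤ Fintype.card V * (481 ^ k * Fintype.card V) := Nat.mul_le_mul_left _ h1
        _ = 481 ^ k * (Fintype.card V * Fintype.card V) := by ring
        _ ≤ 2 ^ (9 * k) * (Fintype.card V * Fintype.card V) := Nat.mul_le_mul_right _ h2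
        _ < 2 ^ (9 * k) * (2 ^ k * 2 ^ k) := Nat.mul_lt_mul_of_pos_left h3 (by positivity)
        _ = 2 ^ (11 * k) := by rw [← pow_add, ← pow_add]; congr 1; ring)
  refine ⟨fun v => (f v).1, fun v => hL'1 v ?_, ?_⟩
  · have := hf1 v
    simp only [hL'', Finset.mem_subtype] at this
    exact this
  · intro p v w hvw hv hw
    have hv' : F.Mem p v := hv
    have hw' : F.Mem p w := hw
    have h2 : 2 ≤ ((∅ ∪ Finset.univ : Finset V).filter (F.Mem p)).card := by
      have : ({v, w} : Finset V) ⊆ (∅ ∪ Finset.univ : Finset V).filter (F.Mem p) := by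
        intro z hz
        rw [Finset.mem_insert, Finset.mem_singleton] at hz
        rcases hz with rfl | rfl
        · simp [hv']
        · simp [hw']
      have h3 := Finset.card_le_card this
      rw [Finset.card_pair hvw] at h3
      exact h3
    obtain ⟨a, ha, b, hb, hab⟩ := hcov p (Set.mem_univ _) (by simp) h2
    refine ⟨b, a, (Finset.mem_filter.1 hb).2, (Finset.mem_filter.1 ha).2, fun h => ?_⟩
    exact hf2 a b hab (Subtype.ext h)

/-- the size of the lists in terms of the number of rectangles -/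
lemma size_bound {n : ℕ} (hn : 2 ≤ n) :
    ((1364 * (Nat.log 2 n + 1) : ℕ) : ℝ) ≤ 4000 * Real.log n := by
  have h2 : (0.6931471803 : ℝ) < Real.log 2 := Real.log_two_gt_d9
  have hn' : (2 : ℝ) ≤ n := by exact_mod_cast hn
  have h1 : (Nat.log 2 n : ℝ) * Real.log 2 ≤ Real.log n := by
    rw [← Real.log_pow]
    refine Real.log_le_log (by positivity) ?_
    have := Nat.pow_log_le_self 2 (x := n) (by omega)
    exact_mod_cast this
  have h3 : Real.log 2 ≤ Real.log n := Real.log_le_log (by norm_num) hn'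
  have h4 : ((Nat.log 2 n : ℝ) + 1) * Real.log 2 ≤ 2 * Real.log n := by linarith
  have h5 : (0 : ℝ) ≤ (Nat.log 2 n : ℝ) + 1 := by positivity
  have h6 : (1364 : ℝ) * ((Nat.log 2 n : ℝ) + 1) * 0.6931471803 ≤
      1364 * (((Nat.log 2 n : ℝ) + 1) * Real.log 2) := by
    nlinarith
  push_cast
  nlinarith

end Pool.Agent.K4H79.LC
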