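import Mathlib

/-!
# Conflicts of the rectangles stabbed by a line with the rectangles of the ancestors

`Fam V` is a family of rectangles `[xa v, xb v] × [ya v, yb v]`.  The relation `Ft t y u v`
(`t < 6`) says that at the height `y` the rectangles `u`, `v` are extreme in their classes; for
every set `S` of rectangles there are at most `6 (4 |S| + 1)` such pairs inside `S`.
-/

namespace Pool.Agent.K4H79.LC

open Finset

/-- a family of rectangles with names -/
structure Fam (V : Type) where
  xa : V → ℝ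
  xb : V → ℝ
  ya : V → ℝ
  yb : V → ℝ
  hx : ∀ v, xa v ≤ xb v
  idx : V → ℕ
  hidx : Function.Injective idx

variable {V : Type} [Fintype V] [DecidableEq V]

set_option linter.unusedSectionVars false

namespace Fam

variable (F : Fam V)

/-- right ends, ties broken -/
noncomputable def keyR (v : V) : ℝ ×ₗ ℕ := toLex (F.xb v, F.idx v)

/-- left ends (reversed), ties broken -/
noncomputable def keyL (v : V) : ℝ ×ₗ ℕ := toLex (-F.xa v, F.idx v)

/-- the rectangle `v` meets the horizontal line at height `y` -/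
def act (y : ℝ) (v : V) : Prop := F.ya v ≤ y ∧ y ≤ F.yb v

/-- `u` is the top element at height `y` of the class `C` with respect to `key` -/
def IsTop (key : V → ℝ ×ₗ ℕ) (C : V → Prop) (y : ℝ) (u : V) : Prop :=
  C u ∧ F.act y u ∧ ∀ w, C w → F.act y w → w ≠ u → key w < key u

lemma isTop_unique {key : V → ℝ ×ₗ ℕ} {C : V → Prop} {y y' : ℝ} {u u' : V} {S : Set V}
    (hS : ∀ w ∈ S, (F.act y w ↔ F.act y' w)) (hu : u ∈ S) (hu' : u' ∈ S)
    (h : F.IsTop key C y u) (h' : F.IsTop key C y' u') : u = u' := by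
  by_contra hne
  have h1 : key u' < key u := h.2.2 u' h'.1 ((hS u' hu').2 h'.2.1) (Ne.symm hne)
  have h2 : key u < key u' := h'.2.2 u h.1 ((hS u hu).1 h.2.1) hne
  exact lt_asymm h1 h2

/-- the six types of extreme pairs at height `y` -/
def Ft (A T : Finset V) (I : Set ℝ) (t : Fin 6) (y : ℝ) (u v : V) : Prop :=
  match t with
  | 0 => F.IsTop F.keyR (fun w => w ∈ A ∧ ∀ x ∈ I, F.xa w ≤ x) y u ∧
          F.IsTop F.keyR (fun w => w ∈ T) y v
  | 1 => F.IsTop F.keyR (fun w => w ∈ A ∧ ∀ x ∈ I, F.xa w ≤ x) y u ∧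
          F.IsTop F.keyL (fun w => w ∈ T) y v
  | 2 => F.IsTop F.keyL (fun w => w ∈ A ∧ ∀ x ∈ I, x ≤ F.xb w) y u ∧
          F.IsTop F.keyR (fun w => w ∈ T) y v
  | 3 => F.IsTop F.keyL (fun w => w ∈ A ∧ ∀ x ∈ I, x ≤ F.xb w) y u ∧
          F.IsTop F.keyL (fun w => w ∈ T) y v
  | 4 => F.IsTop F.keyR (fun w => w ∈ T) y u ∧ F.IsTop F.keyR (fun w => w ∈ T ∧ w ≠ u) y v
  | 5 => F.IsTop F.keyL (fun w => w ∈ T) y u ∧ F.IsTop F.keyL (fun w => w ∈ T ∧ w ≠ u) y v

lemma ft_unique {A T : Finset V} {I : Set ℝ} {t : Fin 6} {y y' : ℝ} {u v u' v' : V} {S : Set V}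
    (hS : ∀ w ∈ S, (F.act y w ↔ F.act y' w)) (hu : u ∈ S) (hu' : u' ∈ S) (hv : v ∈ S)
    (hv' : v' ∈ S) (h : F.Ft A T I t y u v) (h' : F.Ft A T I t y' u' v') : u = u' ∧ v = v' := by
  fin_cases t
  · exact ⟨F.isTop_unique hS hu hu' h.1 h'.1, F.isTop_unique hS hv hv' h.2 h'.2⟩
  · exact ⟨F.isTop_unique hS hu hu' h.1 h'.1, F.isTop_unique hS hv hv' h.2 h'.2⟩
  · exact ⟨F.isTop_unique hS hu hu' h.1 h'.1, F.isTop_unique hS hv hv' h.2 h'.2⟩
  · exact ⟨F.isTop_unique hS hu hu' h.1 h'.1, F.isTop_unique hS hv hv' h.2 h'.2⟩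
  · have e := F.isTop_unique hS hu hu' h.1 h'.1
    subst e
    exact ⟨rfl, F.isTop_unique hS hv hv' h.2 h'.2⟩
  · have e := F.isTop_unique hS hu hu' h.1 h'.1
    subst e
    exact ⟨rfl, F.isTop_unique hS hv hv' h.2 h'.2⟩

/-- the directed conflict relation -/
def Fr (A T : Finset V) (I : Set ℝ) (u v : V) : Prop := ∃ t y, F.Ft A T I t y u v

/-- the ends of the vertical sides of the members of `S` -/
noncomputable def ends (S : Finset V) : Finset ℝ := S.image F.ya ∪ S.image F.yb

/-- the position of a height among the ends -/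
noncomputable def pos (S : Finset V) (y : ℝ) : ℕ :=
  ((F.ends S).filter (fun z => z < y)).card + ((F.ends S).filter (fun z => z ≤ y)).card

lemma ends_card (S : Finset V) : (F.ends S).card ≤ 2 * S.card := by
  unfold ends
  have h1 := Finset.card_union_le (S.image F.ya) (S.image F.yb)
  have h2 := Finset.card_image_le (s := S) (f := F.ya)
  have h3 := Finset.card_image_le (s := S) (f := F.yb)
  omega

lemma pos_lt (S : Finset V) (y : ℝ) : F.pos S y < 4 * S.card + 1 := by
  unfold pos
  have h1 := F.ends_card S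
  have h2 := Finset.card_filter_le (F.ends S) (fun z => z < y)
  have h3 := Finset.card_filter_le (F.ends S) (fun z => z ≤ y)
  omega

lemma pos_aux (S : Finset V) {y y' : ℝ} (hy : y < y') (h : F.pos S y = F.pos S y') :
    ∀ z ∈ F.ends S, ¬ (y ≤ z ∧ z ≤ y') := by
  intro z hz hc
  have h1 : ((F.ends S).filter (fun z => z < y)) ⊆ ((F.ends S).filter (fun z => z < y')) :=
    Finset.monotone_filter_right _ (fun z _ h => lt_trans h hy)
  have h2 : ((F.ends S).filter (fun z => z ≤ y)) ⊆ ((F.ends S).filter (fun z => z ≤ y')) :=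
    Finset.monotone_filter_right _ (fun z _ h => le_trans h hy.le)
  have h3 := Finset.card_le_card h1
  have h4 := Finset.card_le_card h2
  unfold pos at h
  rcases lt_or_eq_of_le hc.2 with h5 | h5
  · have : ((F.ends S).filter (fun z => z < y)) ⊂ ((F.ends S).filter (fun z => z < y')) := by
      refine Finset.ssubset_iff_subset_ne.2 ⟨h1, fun he => ?_⟩
      have : z ∈ ((F.ends S).filter (fun z => z < y')) := Finset.mem_filter.2 ⟨hz, h5⟩
      rw [← he] at this
      exact absurd (Finset.mem_filter.1 this).2 (not_lt.2 hc.1)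
    have := Finset.card_lt_card this
    omega
  · have : ((F.ends S).filter (fun z => z ≤ y)) ⊂ ((F.ends S).filter (fun z => z ≤ y')) := by
      refine Finset.ssubset_iff_subset_ne.2 ⟨h2, fun he => ?_⟩
      have : z ∈ ((F.ends S).filter (fun z => z ≤ y')) := Finset.mem_filter.2 ⟨hz, h5.le⟩
      rw [← he] at this
      have := (Finset.mem_filter.1 this).2
      rw [h5] at this
      exact absurd this (not_le.2 hy)
    have := Finset.card_lt_card this
    omega

lemma act_of_pos_lt (S : Finset V) {y y' : ℝ} (hy : y < y') (h : F.pos S y = F.pos S y') :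
    ∀ w ∈ S, (F.act y w ↔ F.act y' w) := by
  intro w hw
  have ha := F.pos_aux S hy h (F.ya w)
    (Finset.mem_union_left _ (Finset.mem_image_of_mem _ hw))
  have hb := F.pos_aux S hy h (F.yb w)
    (Finset.mem_union_right _ (Finset.mem_image_of_mem _ hw))
  unfold act
  constructor
  · rintro ⟨h1, h2⟩
    refine ⟨h1.trans hy.le, ?_⟩
    by_contra hc
    exact hb ⟨h2, (not_le.1 hc).le⟩
  · rintro ⟨h1, h2⟩
    refine ⟨?_, hy.le.trans h2⟩
    by_contra hc
    exact ha ⟨(not_le.1 hc).le, h1⟩

lemma act_of_pos (S : Finset V) {y y' : ℝ} (h : F.pos S y = F.pos S y') :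
    ∀ w ∈ S, (F.act y w ↔ F.act y' w) := by
  rcases lt_trichotomy y y' with h1 | h1 | h1
  · exact F.act_of_pos_lt S h1 h
  · intro w _; rw [h1]
  · intro w hw; exact (F.act_of_pos_lt S h1 h.symm w hw).symm

open Classical in
/-- linear bound for the number of conflicts -/
theorem count (A T : Finset V) (I : Set ℝ) (S : Finset V) :
    ((S ×ˢ S).filter (fun p => F.Fr A T I p.1 p.2)).card ≤ 6 * (4 * S.card + 1) := by
  have hc : (Finset.univ (α := Fin 6) ×ˢ Finset.range (4 * S.card + 1)).card =
      6 * (4 * S.card + 1) := by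
    rw [Finset.card_product, Finset.card_univ, Fintype.card_fin, Finset.card_range]
  rw [← hc]
  have hch : ∀ p : V × V, F.Fr A T I p.1 p.2 → ∃ q : Fin 6 × ℝ, F.Ft A T I q.1 q.2 p.1 p.2 := by
    rintro p ⟨t, y, h⟩
    exact ⟨(t, y), h⟩
  set g : V × V → Fin 6 × ℝ := fun p => if h : F.Fr A T I p.1 p.2 then (hch p h).choose
    else (0, 0) with hg
  have hg1 : ∀ p, F.Fr A T I p.1 p.2 → F.Ft A T I (g p).1 (g p).2 p.1 p.2 := by
    intro p hp
    simp only [hg, hp, dif_pos]
    exact (hch p hp).choose_spec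
  refine Finset.card_le_card_of_injOn (fun p => ((g p).1, F.pos S (g p).2)) ?_ ?_
  · intro p _
    simp only [Finset.coe_product, Finset.coe_univ, Finset.coe_range, Set.mem_prod, Set.mem_univ,
      true_and, Set.mem_Iio]
    exact F.pos_lt S _
  · intro p hp q hq hpq
    simp only [Finset.coe_filter, Finset.mem_product, Set.mem_ofPred_eq] at hp hq
    simp only [Prod.mk.injEq] at hpq
    have h1 := hg1 p hp.2
    have h2 := hg1 q hq.2
    rw [← hpq.1] at h2
    have h3 := F.ft_unique (S := (S : Set V)) (F.act_of_pos S hpq.2) hp.1.1 hq.1.1 hp.1.2 hq.1.2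
      h1 h2
    exact Prod.ext h3.1 h3.2

end Fam

open Classical in
/-- a vertex of small degree -/
lemma exists_low (S : Finset V) (hS : S.Nonempty) (E : V → V → Prop) (k : ℕ)
    (hE : 2 * ((S ×ˢ S).filter (fun p => E p.1 p.2)).card ≤ k * S.card) :
    ∃ v ∈ S, (S.filter (fun u => E v u ∨ E u v)).card ≤ k := by
  by_contra hcon
  push Not at hcon
  have h1 : ∑ v ∈ S, (k + 1) ≤ ∑ v ∈ S, (S.filter (fun u => E v u ∨ E u v)).card :=
    Finset.sum_le_sum fun v hv => hcon v hv
  have h2 : ∀ v ∈ S, (S.filter (fun u => E v u ∨ E u v)).card ≤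
      (S.filter (fun u => E v u)).card + (S.filter (fun u => E u v)).card := by
    intro v _
    rw [Finset.filter_or]
    exact Finset.card_union_le _ _
  have h3 := Finset.sum_le_sum h2
  rw [Finset.sum_add_distrib] at h3
  have h4 : ∑ v ∈ S, (S.filter (fun u => E v u)).card =
      ((S ×ˢ S).filter (fun p => E p.1 p.2)).card := by
    simp only [Finset.card_filter, Finset.sum_product]
  have h5 : ∑ v ∈ S, (S.filter (fun u => E u v)).card =
      ((S ×ˢ S).filter (fun p => E p.1 p.2)).card := by
    simp only [Finset.card_filter, Finset.sum_product]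
    rw [Finset.sum_comm]
  rw [h4, h5] at h3
  rw [Finset.sum_const, smul_eq_mul] at h1
  have h6 : 0 < S.card := Finset.card_pos.2 hS
  have h7 : S.card * (k + 1) = k * S.card + S.card := by ring
  omega

open Classical in
/-- an order with few earlier neighbours -/
lemma exists_order (E : V → V → Prop) (k : ℕ) (n : ℕ) : ∀ (S : Finset V), S.card = n →
    (∀ S' ⊆ S, S'.Nonempty → ∃ v ∈ S', (S'.filter (fun u => E v u ∨ E u v)).card ≤ k) →
    ∃ σ : V → ℕ, Set.InjOn σ S ∧ (∀ u ∈ S, σ u < n) ∧
      ∀ v ∈ S, (S.filter (fun u => (E v u ∨ E u v) ∧ σ u < σ v)).card ≤ k := by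
  induction n with
  | zero =>
    intro S hS _
    rw [Finset.card_eq_zero] at hS
    subst hS
    exact ⟨fun _ => 0, by simp, by simp, by simp⟩
  | succ n ih =>
    intro S hS h
    obtain ⟨v, hv, hvk⟩ := h S (le_refl _) (Finset.card_pos.1 (by omega))
    obtain ⟨σ, h1, h2, h3⟩ := ih (S.erase v) (by rw [Finset.card_erase_of_mem hv]; omega)
      (fun S' hS' hne => h S' (hS'.trans (Finset.erase_subset _ _)) hne)
    refine ⟨Function.update σ v n, ?_, ?_, ?_⟩
    · intro a ha b hb hab
      by_cases ea : a = v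
      · by_cases eb : b = v
        · rw [ea, eb]
        · exfalso
          rw [ea, Function.update_self, Function.update_of_ne eb] at hab
          have := h2 b (Finset.mem_erase.2 ⟨eb, hb⟩)
          omega
      · by_cases eb : b = v
        · exfalso
          rw [eb, Function.update_self, Function.update_of_ne ea] at hab
          have := h2 a (Finset.mem_erase.2 ⟨ea, ha⟩)
          omega
        · rw [Function.update_of_ne ea, Function.update_of_ne eb] at hab
          exact h1 (by simpa using ⟨ha, ea⟩) (by simpa using ⟨hb, eb⟩) hab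
    · intro u hu
      by_cases e : u = v
      · rw [e, Function.update_self]; omega
      · rw [Function.update_of_ne e]
        have := h2 u (Finset.mem_erase.2 ⟨e, hu⟩)
        omega
    · intro w hw
      by_cases e : w = v
      · subst e
        refine le_trans (Finset.card_le_card ?_) hvk
        exact Finset.monotone_filter_right _ (fun u _ h => h.1)
      · refine le_trans (Finset.card_le_card ?_) (h3 w (Finset.mem_erase.2 ⟨e, hw⟩))
        intro u hu
        rw [Finset.mem_filter] at hu
        have hlt := hu.2.2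
        rw [Function.update_of_ne e] at hlt
        have huv : u ≠ v := by
          rintro rfl
          rw [Function.update_self] at hlt
          have := h2 w (Finset.mem_erase.2 ⟨e, hw⟩)
          omega
        rw [Function.update_of_ne huv] at hlt
        exact Finset.mem_filter.2 ⟨Finset.mem_erase.2 ⟨huv, hu.1⟩, hu.2.1, hlt⟩

open Classical in
/-- the order at a node -/
theorem node_order (F : Fam V) (A T : Finset V) (I : Set ℝ) (S : Finset V) :
    ∃ σ : V → ℕ, Set.InjOn σ S ∧ (∀ u ∈ S, σ u < S.card) ∧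
      ∀ v ∈ S, (S.filter (fun u => (F.Fr A T I v u ∨ F.Fr A T I u v) ∧ σ u < σ v)).card ≤ 60 := by
  refine exists_order (F.Fr A T I) 60 S.card S rfl fun S' _ hne => ?_
  refine exists_low S' hne (F.Fr A T I) 60 ?_
  have h1 := F.count A T I S'
  have h2 : 0 < S'.card := Finset.card_pos.2 hne
  omega

end Pool.Agent.K4H79.LC
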