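import Pool.Agent.K4H79.LC.Tree

/-!
# The recursion along the interval tree
-/

namespace Pool.Agent.K4H79.LC

open Finset

variable {V : Type} [Fintype V] [DecidableEq V]

set_option linter.unusedSectionVars false

/-- the data of a vertex: rank, time, few and thin neighbours -/
structure Q (V : Type) where
  rho : ℕ
  tau : ℕ
  few : Finset V
  thin : Finset V

/-- the data at `v` are good, and all neighbours lie in `X` -/
def Good (s : V → Q V) (X : Finset V) (v : V) : Prop :=
  (s v).few ⊆ X ∧ (s v).thin ⊆ X ∧ (s v).few.card ≤ 60 ∧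
    (∀ u ∈ (s v).few, (s u).tau < (s v).tau) ∧
    4 * ∑ u ∈ (s v).thin, 2 ^ (s u).rho ≤ 2 ^ (s v).rho

lemma Good.congr {s s' : V → Q V} {X : Finset V} {v : V} (h : Good s X v)
    (hX : ∀ u ∈ X, s' u = s u) (hv : s' v = s v) : Good s' X v := by
  obtain ⟨h1, h2, h3, h4, h5⟩ := h
  unfold Good
  rw [hv]
  refine ⟨h1, h2, h3, fun u hu => ?_, ?_⟩
  · rw [hX u (h1 hu)]; exact h4 u hu
  · have : ∑ u ∈ (s v).thin, 2 ^ (s' u).rho = ∑ u ∈ (s v).thin, 2 ^ (s u).rho :=
      Finset.sum_congr rfl fun u hu => by rw [hX u (h2 hu)]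
    rw [this]; exact h5

lemma Good.mono {s : V → Q V} {X Y : Finset V} {v : V} (h : Good s X v) (hXY : X ⊆ Y) :
    Good s Y v :=
  ⟨h.1.trans hXY, h.2.1.trans hXY, h.2.2⟩

open Classical in
/-- the step at a node of the tree -/
lemma step (F : Fam V) (A T : Finset V) (I : Set ℝ) (s : V → Q V) (B w : ℕ)
    (hAT : Disjoint A T) (hB : ∀ a ∈ A, (s a).tau < B) (hw : ∑ a ∈ A, 2 ^ (s a).rho ≤ w) :
    ∃ s' : V → Q V, (∀ v, v ∉ T → s' v = s v) ∧ (∀ v ∈ T, Good s' (A ∪ T) v) ∧
      (∀ v ∈ A ∪ T, (s' v).tau < B + (A ∪ T).card) ∧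
      (∑ v ∈ T, 2 ^ (s' v).rho ≤ T.card + 480 * w) ∧
      (∀ u ∈ A ∪ T, ∀ v ∈ A ∪ T, u ≠ v → (u ∈ T ∨ v ∈ T) → F.Fr A T I u v →
        (u ∈ (s' v).few ∪ (s' v).thin) ∨ (v ∈ (s' u).few ∪ (s' u).thin)) := by
  obtain ⟨σ, h1, h2, h3⟩ := node_order F A T I (A ∪ T)
  set few : V → Finset V := fun v => (A ∪ T).filter
    (fun u => (F.Fr A T I v u ∨ F.Fr A T I u v) ∧ σ u < σ v) with hfew
  set thin : V → Finset V := fun v => A.filter
    (fun u => (F.Fr A T I v u ∨ F.Fr A T I u v) ∧ σ v < σ u) with hthin
  set r : V → ℕ := fun v => Nat.clog 2 (4 * ∑ u ∈ thin v, 2 ^ (s u).rho) with hr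
  set s' : V → Q V := fun v => if v ∈ T then ⟨r v, B + σ v, few v, thin v⟩ else s v with hs'
  have hout : ∀ v, v ∉ T → s' v = s v := fun v hv => by simp only [hs', hv, if_false]
  have hin : ∀ v, v ∈ T → s' v = ⟨r v, B + σ v, few v, thin v⟩ := fun v hv => by
    simp only [hs', hv, if_true]
  have hAout : ∀ a ∈ A, s' a = s a := fun a ha => hout a (Finset.disjoint_left.1 hAT ha)
  refine ⟨s', hout, ?_, ?_, ?_, ?_⟩
  · intro v hv
    have hvU : v ∈ A ∪ T := Finset.mem_union_right _ hv
    unfold Good
    rw [hin v hv]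
    refine ⟨Finset.filter_subset _ _, (Finset.filter_subset _ _).trans Finset.subset_union_left,
      h3 v hvU, ?_, ?_⟩
    · intro u hu
      have hu' := Finset.mem_filter.1 hu
      by_cases huT : u ∈ T
      · rw [hin u huT]
        have := hu'.2.2
        simp only
        omega
      · have huA : u ∈ A := by
          rcases Finset.mem_union.1 hu'.1 with h | h
          · exact h
          · exact absurd h huT
        rw [hAout u huA]
        have := hB u huA
        simp only
        omega
    · have e : ∑ u ∈ thin v, 2 ^ (s' u).rho = ∑ u ∈ thin v, 2 ^ (s u).rho :=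
        Finset.sum_congr rfl fun u hu => by rw [hAout u (Finset.mem_filter.1 hu).1]
      simp only
      rw [e]
      exact (clog_bound _).1
  · intro v hv
    by_cases hvT : v ∈ T
    · rw [hin v hvT]
      have := h2 v hv
      simp only
      omega
    · have hvA : v ∈ A := by
        rcases Finset.mem_union.1 hv with h | h
        · exact h
        · exact absurd h hvT
      rw [hAout v hvA]
      have := hB v hvA
      omega
  · have e1 : ∀ v ∈ T, 2 ^ (s' v).rho ≤ 1 + 8 * ∑ u ∈ thin v, 2 ^ (s u).rho := by
      intro v hv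
      rw [hin v hv]
      have := (clog_bound (4 * ∑ u ∈ thin v, 2 ^ (s u).rho)).2
      change 2 ^ (Nat.clog 2 (4 * ∑ u ∈ thin v, 2 ^ (s u).rho)) ≤ _
      omega
    have e2 : ∑ v ∈ T, ∑ u ∈ thin v, 2 ^ (s u).rho ≤ 60 * w := by
      have e3 : ∑ v ∈ T, ∑ u ∈ thin v, 2 ^ (s u).rho =
          ∑ u ∈ A, ∑ v ∈ T.filter
            (fun v => (F.Fr A T I v u ∨ F.Fr A T I u v) ∧ σ v < σ u), 2 ^ (s u).rho := by
        simp only [hthin, Finset.sum_filter]
        rw [Finset.sum_comm]
      rw [e3]
      calc _ ≤ ∑ u ∈ A, 60 * 2 ^ (s u).rho := by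
            refine Finset.sum_le_sum fun u hu => ?_
            rw [Finset.sum_const, smul_eq_mul]
            refine Nat.mul_le_mul_right _ ?_
            refine le_trans (Finset.card_le_card ?_) (h3 u (Finset.mem_union_left _ hu))
            intro v hv
            have hv' := Finset.mem_filter.1 hv
            exact Finset.mem_filter.2 ⟨Finset.mem_union_right _ hv'.1, hv'.2.1.symm, hv'.2.2⟩
        _ = 60 * ∑ u ∈ A, 2 ^ (s u).rho := by rw [Finset.mul_sum]
        _ ≤ 60 * w := Nat.mul_le_mul_left _ hw
    have e4 := Finset.sum_le_sum e1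
    rw [Finset.sum_add_distrib, ← Finset.mul_sum, Finset.sum_const, smul_eq_mul, mul_one] at e4
    omega
  · intro u hu v hv hne hT hF
    have hσ : σ u ≠ σ v := fun h => hne (h1 (by exact_mod_cast hu) (by exact_mod_cast hv) h)
    rcases lt_or_gt_of_ne hσ with hlt | hlt
    · by_cases hvT : v ∈ T
      · left
        rw [hin v hvT]
        exact Finset.mem_union_left _ (Finset.mem_filter.2 ⟨hu, Or.inr hF, hlt⟩)
      · have huT : u ∈ T := hT.resolve_right hvT
        have hvA : v ∈ A := (Finset.mem_union.1 hv).resolve_right hvT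
        right
        rw [hin u huT]
        exact Finset.mem_union_right _ (Finset.mem_filter.2 ⟨hvA, Or.inl hF, hlt⟩)
    · by_cases huT : u ∈ T
      · right
        rw [hin u huT]
        exact Finset.mem_union_left _ (Finset.mem_filter.2 ⟨hv, Or.inl hF, hlt⟩)
      · have hvT : v ∈ T := hT.resolve_left huT
        have huA : u ∈ A := (Finset.mem_union.1 hu).resolve_right huT
        left
        rw [hin v hvT]
        exact Finset.mem_union_right _ (Finset.mem_filter.2 ⟨huA, Or.inr hF, hlt⟩)

lemma fr_ne {F : Fam V} {A T : Finset V} {I : Set ℝ} (hAT : Disjoint A T) {u v : V}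
    (h : F.Fr A T I u v) : u ≠ v := by
  obtain ⟨t, y, h⟩ := h
  rintro rfl
  fin_cases t
  · exact Finset.disjoint_left.1 hAT h.1.1.1 h.2.1
  · exact Finset.disjoint_left.1 hAT h.1.1.1 h.2.1
  · exact Finset.disjoint_left.1 hAT h.1.1.1 h.2.1
  · exact Finset.disjoint_left.1 hAT h.1.1.1 h.2.1
  · exact h.2.1.2 rfl
  · exact h.2.1.2 rfl

open Classical in
/-- the recursion -/
theorem recursion (F : Fam V) (k : ℕ) : ∀ (U A : Finset V) (I : Set ℝ) (s : V → Q V) (B w : ℕ),
    Disjoint A U → U.card < 2 ^ k →
    (∀ a ∈ A, (∀ x ∈ I, F.xa a ≤ x) ∨ (∀ x ∈ I, x ≤ F.xb a)) →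
    (∀ a ∈ A, (s a).tau < B) → (∑ a ∈ A, 2 ^ (s a).rho ≤ w) →
    ∃ s' : V → Q V, (∀ v, v ∉ U → s' v = s v) ∧ (∀ v ∈ U, Good s' (A ∪ U) v) ∧
      (∀ v ∈ U, 2 ^ (s' v).rho ≤ 481 ^ k * (w + U.card)) ∧
      (∀ p : ℝ × ℝ, p.1 ∈ I → (A.filter (F.Mem p)).card ≤ 1 →
        2 ≤ ((A ∪ U).filter (F.Mem p)).card →
        ∃ v ∈ (A ∪ U).filter (F.Mem p), ∃ u ∈ (A ∪ U).filter (F.Mem p),
          u ∈ (s' v).few ∪ (s' v).thin) := by
  induction k with
  | zero =>
    intro U A I s B w _ hU _ _ _
    have hU0 : U = ∅ := by
      rw [pow_zero] at hU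
      exact Finset.card_eq_zero.1 (by omega)
    subst hU0
    refine ⟨s, fun _ _ => rfl, by simp, by simp, fun p _ h1 h2 => ?_⟩
    rw [Finset.union_empty] at h2
    omega
  | succ k ih =>
    intro U A I s B w hAU hU hA hB hw
    obtain ⟨m, hm1, hm2⟩ := median U F.xa
    set T := U.filter (fun v => F.xa v ≤ m ∧ m ≤ F.xb v) with hT
    set Ul := U.filter (fun v => F.xb v < m) with hUl
    set Ur := U.filter (fun v => m < F.xa v) with hUr
    have hTU : T ⊆ U := Finset.filter_subset _ _
    have hUlU : Ul ⊆ U := Finset.filter_subset _ _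
    have hUrU : Ur ⊆ U := Finset.filter_subset _ _
    have hAT : Disjoint A T := Finset.disjoint_of_subset_right hTU hAU
    have dTl : Disjoint T Ul := by
      rw [Finset.disjoint_left]
      intro v h1 h2
      exact absurd (Finset.mem_filter.1 h2).2 (not_lt.2 (Finset.mem_filter.1 h1).2.2)
    have dTr : Disjoint T Ur := by
      rw [Finset.disjoint_left]
      intro v h1 h2
      exact absurd (Finset.mem_filter.1 h2).2 (not_lt.2 (Finset.mem_filter.1 h1).2.1)
    have dlr : Disjoint Ul Ur := by
      rw [Finset.disjoint_left]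
      intro v h1 h2
      have a1 := (Finset.mem_filter.1 h1).2
      have a2 := (Finset.mem_filter.1 h2).2
      have a3 := F.hx v
      linarith
    have hUeq : ∀ v ∈ U, v ∈ T ∨ v ∈ Ul ∨ v ∈ Ur := by
      intro v hv
      rcases lt_or_ge (F.xb v) m with h | h
      · exact Or.inr (Or.inl (Finset.mem_filter.2 ⟨hv, h⟩))
      · rcases lt_or_ge m (F.xa v) with h' | h'
        · exact Or.inr (Or.inr (Finset.mem_filter.2 ⟨hv, h'⟩))
        · exact Or.inl (Finset.mem_filter.2 ⟨hv, h', h⟩)
    have hUlc : Ul.card < 2 ^ k := by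
      have h1 : Ul ⊆ U.filter (fun v => F.xa v < m) := by
        intro v hv
        have hv' := Finset.mem_filter.1 hv
        exact Finset.mem_filter.2 ⟨hv'.1, lt_of_le_of_lt (F.hx v) hv'.2⟩
      have h2 := Finset.card_le_card h1
      rw [pow_succ] at hU
      omega
    have hUrc : Ur.card < 2 ^ k := by
      rw [pow_succ] at hU
      omega
    -- the cards
    have hcl : T.card + Ul.card ≤ U.card := by
      rw [← Finset.card_union_of_disjoint dTl]
      exact Finset.card_le_card (Finset.union_subset hTU hUlU)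
    have hcr : T.card + Ur.card ≤ U.card := by
      rw [← Finset.card_union_of_disjoint dTr]
      exact Finset.card_le_card (Finset.union_subset hTU hUrU)
    -- the step
    obtain ⟨s1, h11, h12, h13, h14, h15⟩ := step F A T I s B w hAT hB hw
    have hA1 : ∀ a ∈ A, s1 a = s a := fun a ha => h11 a (Finset.disjoint_left.1 hAT ha)
    set B1 := B + (A ∪ T).card with hB1
    set w1 := 481 * w + T.card with hw1
    have hw1' : ∑ a ∈ A ∪ T, 2 ^ (s1 a).rho ≤ w1 := by
      rw [Finset.sum_union hAT]
      have : ∑ a ∈ A, 2 ^ (s1 a).rho = ∑ a ∈ A, 2 ^ (s a).rho :=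
        Finset.sum_congr rfl fun a ha => by rw [hA1 a ha]
      omega
    have hdl : Disjoint (A ∪ T) Ul := by
      rw [Finset.disjoint_union_left]
      exact ⟨Finset.disjoint_of_subset_right hUlU hAU, dTl⟩
    have hdr : Disjoint (A ∪ T) Ur := by
      rw [Finset.disjoint_union_left]
      exact ⟨Finset.disjoint_of_subset_right hUrU hAU, dTr⟩
    -- the left child
    obtain ⟨s2, h21, h22, h23, h24⟩ := ih Ul (A ∪ T) (I ∩ Set.Iio m) s1 B1 w1 hdl hUlc
      (by
        intro a ha
        rcases Finset.mem_union.1 ha with ha | ha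
        · rcases hA a ha with h | h
          · exact Or.inl fun x hx => h x hx.1
          · exact Or.inr fun x hx => h x hx.1
        · exact Or.inr fun x hx => (le_of_lt hx.2).trans (Finset.mem_filter.1 ha).2.2)
      h13 hw1'
    have hA2 : ∀ a ∈ A ∪ T, s2 a = s1 a := fun a ha => h21 a (Finset.disjoint_left.1 hdl ha)
    -- the right child
    obtain ⟨s3, h31, h32, h33, h34⟩ := ih Ur (A ∪ T) (I ∩ Set.Ioi m) s2 B1 w1 hdr hUrc
      (by
        intro a ha
        rcases Finset.mem_union.1 ha with ha | ha
        · rcases hA a ha with h | h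
          · exact Or.inl fun x hx => h x hx.1
          · exact Or.inr fun x hx => h x hx.1
        · exact Or.inl fun x hx => (Finset.mem_filter.1 ha).2.1.trans (le_of_lt hx.2))
      (fun a ha => by rw [hA2 a ha]; exact h13 a ha)
      (by
        refine le_trans (le_of_eq ?_) hw1'
        exact Finset.sum_congr rfl fun a ha => by rw [hA2 a ha])
    have hA3 : ∀ a ∈ A ∪ T, s3 a = s2 a := fun a ha => h31 a (Finset.disjoint_left.1 hdr ha)
    have hl3 : ∀ a ∈ Ul, s3 a = s2 a := fun a ha => h31 a (Finset.disjoint_left.1 dlr ha)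
    have sub1 : A ∪ T ⊆ A ∪ U := Finset.union_subset_union_right hTU
    have subl : (A ∪ T) ∪ Ul ⊆ A ∪ U :=
      Finset.union_subset sub1 (hUlU.trans Finset.subset_union_right)
    have subr : (A ∪ T) ∪ Ur ⊆ A ∪ U :=
      Finset.union_subset sub1 (hUrU.trans Finset.subset_union_right)
    have hk1 : 1 ≤ 481 ^ k := Nat.one_le_pow _ _ (by norm_num)
    refine ⟨s3, ?_, ?_, ?_, ?_⟩
    · intro v hv
      rw [h31 v (fun h => hv (hUrU h)), h21 v (fun h => hv (hUlU h)), h11 v (fun h => hv (hTU h))]
    · intro v hv
      rcases hUeq v hv with h | h | h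
      · refine ((h12 v h).congr (fun u hu => ?_) ?_).mono sub1
        · rw [hA3 u hu, hA2 u hu]
        · rw [hA3 v (Finset.mem_union_right _ h), hA2 v (Finset.mem_union_right _ h)]
      · refine ((h22 v h).congr (fun u hu => ?_) (hl3 v h)).mono subl
        rcases Finset.mem_union.1 hu with hu | hu
        · exact hA3 u hu
        · exact hl3 u hu
      · exact (h32 v h).mono subr
    · intro v hv
      rcases hUeq v hv with h | h | h
      · rw [hA3 v (Finset.mem_union_right _ h), hA2 v (Finset.mem_union_right _ h)]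
        have h1 : 2 ^ (s1 v).rho ≤ ∑ v ∈ T, 2 ^ (s1 v).rho :=
          Finset.single_le_sum (f := fun v => 2 ^ (s1 v).rho) (fun _ _ => Nat.zero_le _) h
        have h2 : T.card ≤ U.card := Finset.card_le_card hTU
        calc 2 ^ (s1 v).rho ≤ T.card + 480 * w := h1.trans h14
          _ ≤ 481 * (w + U.card) := by omega
          _ = 481 ^ 1 * (w + U.card) := by rw [pow_one]
          _ ≤ 481 ^ (k + 1) * (w + U.card) :=
              Nat.mul_le_mul_right _ (Nat.pow_le_pow_right (by norm_num) (by omega))
      · rw [hl3 v h]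
        calc 2 ^ (s2 v).rho ≤ 481 ^ k * (w1 + Ul.card) := h23 v h
          _ ≤ 481 ^ k * (481 * (w + U.card)) := Nat.mul_le_mul_left _ (by omega)
          _ = 481 ^ (k + 1) * (w + U.card) := by rw [pow_succ]; ring
      · calc 2 ^ (s3 v).rho ≤ 481 ^ k * (w1 + Ur.card) := h33 v h
          _ ≤ 481 ^ k * (481 * (w + U.card)) := Nat.mul_le_mul_left _ (by omega)
          _ = 481 ^ (k + 1) * (w + U.card) := by rw [pow_succ]; ring
    · intro p hpI hpA hp2
      have hTm : ∀ v ∈ T, F.xa v ≤ m ∧ m ≤ F.xb v := fun v hv => (Finset.mem_filter.1 hv).2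
      have hs31 : ∀ a ∈ A ∪ T, s3 a = s1 a := fun a ha => by rw [hA3 a ha, hA2 a ha]
      -- a conflict inside `A ∪ T`
      have use : ∀ u v, u ∈ A ∪ T → v ∈ A ∪ T → F.Mem p u → F.Mem p v → (u ∈ T ∨ v ∈ T) →
          F.Fr A T I u v →
          ∃ v ∈ (A ∪ U).filter (F.Mem p), ∃ u ∈ (A ∪ U).filter (F.Mem p),
            u ∈ (s3 v).few ∪ (s3 v).thin := by
        intro u v hu hv hpu hpv hT' hF
        rcases h15 u hu v hv (fr_ne hAT hF) hT' hF with h | h
        · exact ⟨v, Finset.mem_filter.2 ⟨sub1 hv, hpv⟩, u, Finset.mem_filter.2 ⟨sub1 hu, hpu⟩, by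
            rw [hs31 v hv]; exact h⟩
        · exact ⟨u, Finset.mem_filter.2 ⟨sub1 hu, hpu⟩, v, Finset.mem_filter.2 ⟨sub1 hv, hpv⟩, by
            rw [hs31 u hu]; exact h⟩
      by_cases hT2 : 2 ≤ (T.filter (F.Mem p)).card
      · obtain ⟨u, hu, v, hv, hF⟩ := F.cover_T A T I m hTm p hT2
        rw [Finset.mem_filter] at hu hv
        exact use u v (Finset.mem_union_right _ hu.1) (Finset.mem_union_right _ hv.1) hu.2 hv.2
          (Or.inl hu.1) hF
      · by_cases hcross : (A.filter (F.Mem p)).card = 1 ∧ (T.filter (F.Mem p)).card = 1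
        · obtain ⟨a, ha⟩ := Finset.card_eq_one.1 hcross.1
          obtain ⟨i, hi⟩ := Finset.card_eq_one.1 hcross.2
          have hF := F.cover_A A T I m hTm hA p hpI ha hi
          have ha1 : a ∈ A.filter (F.Mem p) := by rw [ha]; exact Finset.mem_singleton_self a
          have hi1 : i ∈ T.filter (F.Mem p) := by rw [hi]; exact Finset.mem_singleton_self i
          rw [Finset.mem_filter] at ha1 hi1
          exact use a i (Finset.mem_union_left _ ha1.1) (Finset.mem_union_right _ hi1.1) ha1.2
            hi1.2 (Or.inr hi1.1) hF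
        · -- at most one member of `A ∪ T` contains `p`
          have hAT1 : ((A ∪ T).filter (F.Mem p)).card ≤ 1 := by
            rw [Finset.filter_union]
            have := Finset.card_union_le (A.filter (F.Mem p)) (T.filter (F.Mem p))
            by_contra hc
            apply hcross
            omega
          -- `p` is not on the line
          rcases lt_trichotomy p.1 m with hlt | heq | hgt
          · have e : (A ∪ U).filter (F.Mem p) ⊆ ((A ∪ T) ∪ Ul).filter (F.Mem p) := by
              intro v hv
              rw [Finset.mem_filter] at hv ⊢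
              refine ⟨?_, hv.2⟩
              rcases Finset.mem_union.1 hv.1 with h | h
              · exact Finset.mem_union_left _ (Finset.mem_union_left _ h)
              · rcases hUeq v h with h | h | h
                · exact Finset.mem_union_left _ (Finset.mem_union_right _ h)
                · exact Finset.mem_union_right _ h
                · exfalso
                  have a1 := (Finset.mem_filter.1 h).2
                  have a2 := hv.2.1
                  linarith
            obtain ⟨v, hv, u, hu, huv⟩ := h24 p ⟨hpI, hlt⟩ hAT1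
              (hp2.trans (Finset.card_le_card e))
            rw [Finset.mem_filter] at hv hu
            refine ⟨v, Finset.mem_filter.2 ⟨subl hv.1, hv.2⟩, u,
              Finset.mem_filter.2 ⟨subl hu.1, hu.2⟩, ?_⟩
            have : s3 v = s2 v := by
              rcases Finset.mem_union.1 hv.1 with h | h
              · exact hA3 v h
              · exact hl3 v h
            rw [this]; exact huv
          · exfalso
            have e : (A ∪ U).filter (F.Mem p) ⊆ (A ∪ T).filter (F.Mem p) := by
              intro v hv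
              rw [Finset.mem_filter] at hv ⊢
              refine ⟨?_, hv.2⟩
              rcases Finset.mem_union.1 hv.1 with h | h
              · exact Finset.mem_union_left _ h
              · rcases hUeq v h with h | h | h
                · exact Finset.mem_union_right _ h
                · exfalso
                  have a1 := (Finset.mem_filter.1 h).2
                  have a2 := hv.2.2.1
                  linarith
                · exfalso
                  have a1 := (Finset.mem_filter.1 h).2
                  have a2 := hv.2.1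
                  linarith
            have := Finset.card_le_card e
            omega
          · have e : (A ∪ U).filter (F.Mem p) ⊆ ((A ∪ T) ∪ Ur).filter (F.Mem p) := by
              intro v hv
              rw [Finset.mem_filter] at hv ⊢
              refine ⟨?_, hv.2⟩
              rcases Finset.mem_union.1 hv.1 with h | h
              · exact Finset.mem_union_left _ (Finset.mem_union_left _ h)
              · rcases hUeq v h with h | h | h
                · exact Finset.mem_union_left _ (Finset.mem_union_right _ h)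
                · exfalso
                  have a1 := (Finset.mem_filter.1 h).2
                  have a2 := hv.2.2.1
                  linarith
                · exact Finset.mem_union_right _ h
            obtain ⟨v, hv, u, hu, huv⟩ := h34 p ⟨hpI, hgt⟩ hAT1
              (hp2.trans (Finset.card_le_card e))
            rw [Finset.mem_filter] at hv hu
            exact ⟨v, Finset.mem_filter.2 ⟨subr hv.1, hv.2⟩, u,
              Finset.mem_filter.2 ⟨subr hu.1, hu.2⟩, huv⟩

end Pool.Agent.K4H79.LC
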