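import Pool.Agent.K4H79.LC.Node

/-!
# The interval tree
-/

namespace Pool.Agent.K4H79.LC

open Finset

variable {V : Type} [Fintype V] [DecidableEq V]

set_option linter.unusedSectionVars false

open Classical in
lemma median (U : Finset V) (f : V → ℝ) :
    ∃ m : ℝ, 2 * (U.filter (fun v => m < f v)).card ≤ U.card ∧
      2 * (U.filter (fun v => f v < m)).card ≤ U.card := by
  rcases U.eq_empty_or_nonempty with h | h
  · subst h
    exact ⟨0, by simp, by simp⟩
  obtain ⟨i0, hi0, hmax⟩ := Finset.exists_max_image U f h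
  set G := U.filter (fun i => U.card ≤ 2 * (U.filter (fun j => f j ≤ f i)).card) with hG
  have hGne : G.Nonempty := by
    refine ⟨i0, Finset.mem_filter.2 ⟨hi0, ?_⟩⟩
    rw [Finset.filter_true_of_mem (fun j hj => hmax j hj)]
    omega
  obtain ⟨i, hi, hmin⟩ := Finset.exists_min_image G f hGne
  have hi' := (Finset.mem_filter.1 hi).2
  refine ⟨f i, ?_, ?_⟩
  · have h1 := Finset.card_filter_add_card_filter_not (s := U) (fun j => f j ≤ f i)
    have h2 : (U.filter (fun v => f i < f v)) = U.filter (fun j => ¬ f j ≤ f i) :=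
      Finset.filter_congr (fun j _ => not_le.symm)
    rw [h2]
    omega
  · by_contra hc
    push Not at hc
    have hne : (U.filter (fun v => f v < f i)).Nonempty := Finset.card_pos.1 (by omega)
    obtain ⟨j, hj, hjmax⟩ := Finset.exists_max_image _ f hne
    have hj' := Finset.mem_filter.1 hj
    have h3 : (U.filter (fun v => f v < f i)) ⊆ U.filter (fun v => f v ≤ f j) := by
      intro v hv
      exact Finset.mem_filter.2 ⟨(Finset.mem_filter.1 hv).1, hjmax v hv⟩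
    have h4 := Finset.card_le_card h3
    have h5 : j ∈ G := Finset.mem_filter.2 ⟨hj'.1, by omega⟩
    exact absurd (hmin j h5) (not_le.2 hj'.2)

lemma clog_bound (x : ℕ) : x ≤ 2 ^ Nat.clog 2 x ∧ 2 ^ Nat.clog 2 x ≤ 2 * x + 1 := by
  refine ⟨Nat.le_pow_clog (by norm_num) x, ?_⟩
  rcases Nat.lt_or_ge x 2 with h | h
  · interval_cases x <;> simp
  · have h1 := Nat.pow_pred_clog_lt_self (b := 2) (by norm_num) (x := x) (by omega)
    have h2 : 0 < Nat.clog 2 x := Nat.clog_pos (by norm_num) h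
    obtain ⟨d, hd⟩ := Nat.exists_eq_succ_of_ne_zero h2.ne'
    rw [hd] at h1 ⊢
    simp only [Nat.pred_succ, Nat.succ_eq_add_one] at h1
    rw [Nat.succ_eq_add_one, pow_succ]
    omega

namespace Fam

variable (F : Fam V)

/-- the point `p` lies in the rectangle `v` -/
def Mem (p : ℝ × ℝ) (v : V) : Prop := F.xa v ≤ p.1 ∧ p.1 ≤ F.xb v ∧ F.act p.2 v

lemma keyR_inj : Function.Injective F.keyR := by
  intro v w h
  have h1 := congrArg (fun z => (ofLex z).2) h
  exact F.hidx h1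

lemma keyL_inj : Function.Injective F.keyL := by
  intro v w h
  have h1 := congrArg (fun z => (ofLex z).2) h
  exact F.hidx h1

lemma keyR_le {w v : V} (h : F.keyR w ≤ F.keyR v) : F.xb w ≤ F.xb v := by
  unfold keyR at h
  rw [Prod.Lex.toLex_le_toLex] at h
  rcases h with h | h
  · exact h.le
  · exact h.1.le

lemma keyL_le {w v : V} (h : F.keyL w ≤ F.keyL v) : -F.xa w ≤ -F.xa v := by
  unfold keyL at h
  rw [Prod.Lex.toLex_le_toLex] at h
  rcases h with h | h
  · exact h.le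
  · exact h.1.le

lemma keyR_lt {w v : V} (h : F.xb w < F.xb v) : F.keyR w < F.keyR v := by
  unfold keyR
  rw [Prod.Lex.toLex_lt_toLex]
  exact Or.inl h

lemma keyL_lt {w v : V} (h : -F.xa w < -F.xa v) : F.keyL w < F.keyL v := by
  unfold keyL
  rw [Prod.Lex.toLex_lt_toLex]
  exact Or.inl h

open Classical in
lemma top_two {key : V → ℝ ×ₗ ℕ} (hinj : Function.Injective key) (e : V → ℝ)
    (h2 : ∀ w v, key w ≤ key v → e w ≤ e v) (T : Finset V) (y x' : ℝ)
    (hP : 2 ≤ (T.filter (fun w => F.act y w ∧ x' ≤ e w)).card) :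
    ∃ u ∈ T.filter (fun w => F.act y w ∧ x' ≤ e w),
      ∃ v ∈ T.filter (fun w => F.act y w ∧ x' ≤ e w),
        F.IsTop key (fun w => w ∈ T) y u ∧ F.IsTop key (fun w => w ∈ T ∧ w ≠ u) y v := by
  set P := T.filter (fun w => F.act y w ∧ x' ≤ e w) with hPd
  set S := T.filter (fun w => F.act y w) with hSd
  have hPS : P ⊆ S := by
    intro w hw
    rw [hPd, Finset.mem_filter] at hw
    exact Finset.mem_filter.2 ⟨hw.1, hw.2.1⟩
  have hSc : 2 ≤ S.card := hP.trans (Finset.card_le_card hPS)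
  obtain ⟨u, hu, humax⟩ := Finset.exists_max_image S key (Finset.card_pos.1 (by omega))
  have hS' : (S.erase u).Nonempty := Finset.card_pos.1 (by
    rw [Finset.card_erase_of_mem hu]; omega)
  obtain ⟨v, hv, hvmax⟩ := Finset.exists_max_image (S.erase u) key hS'
  have hu' := Finset.mem_filter.1 hu
  have hvS := Finset.mem_of_mem_erase hv
  have hv' := Finset.mem_filter.1 hvS
  -- an element of `P` different from `u`
  have hex : ∃ w ∈ P, w ≠ u := by
    by_contra hcon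
    push Not at hcon
    have : P ⊆ {u} := fun w hw => Finset.mem_singleton.2 (hcon w hw)
    have := Finset.card_le_card this
    rw [Finset.card_singleton] at this
    omega
  obtain ⟨w, hw, hwu⟩ := hex
  have hw' := (Finset.mem_filter.1 hw).2
  have hwv : key w ≤ key v := hvmax w (Finset.mem_erase.2 ⟨hwu, hPS hw⟩)
  have hvu : key v ≤ key u := humax v hvS
  have e1 := h2 _ _ hwv
  have e2 := h2 _ _ hvu
  refine ⟨u, Finset.mem_filter.2 ⟨hu'.1, hu'.2, by linarith [hw'.2]⟩, v,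
    Finset.mem_filter.2 ⟨hv'.1, hv'.2, by linarith [hw'.2]⟩, ⟨hu'.1, hu'.2, ?_⟩,
    ⟨⟨hv'.1, Finset.ne_of_mem_erase hv⟩, hv'.2, ?_⟩⟩
  · intro z hz hzy hne
    exact lt_of_le_of_ne (humax z (Finset.mem_filter.2 ⟨hz, hzy⟩)) (fun h => hne (hinj h))
  · intro z hz hzy hne
    exact lt_of_le_of_ne (hvmax z (Finset.mem_erase.2 ⟨hz.2, Finset.mem_filter.2 ⟨hz.1, hzy⟩⟩))
      (fun h => hne (hinj h))

open Classical in
lemma cover_T (A T : Finset V) (I : Set ℝ) (m : ℝ) (hT : ∀ v ∈ T, F.xa v ≤ m ∧ m ≤ F.xb v)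
    (p : ℝ × ℝ) (hp : 2 ≤ (T.filter (F.Mem p)).card) :
    ∃ u ∈ T.filter (F.Mem p), ∃ v ∈ T.filter (F.Mem p), F.Fr A T I u v := by
  rcases le_or_gt m p.1 with h | h
  · have e : T.filter (F.Mem p) = T.filter (fun w => F.act p.2 w ∧ p.1 ≤ F.xb w) := by
      refine Finset.filter_congr fun w hw => ?_
      have := hT w hw
      unfold Mem
      constructor
      · rintro ⟨_, h2, h3⟩; exact ⟨h3, h2⟩
      · rintro ⟨h3, h2⟩; exact ⟨this.1.trans h, h2, h3⟩
    rw [e] at hp ⊢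
    obtain ⟨u, hu, v, hv, h1, h2⟩ := F.top_two F.keyR_inj F.xb (fun _ _ => F.keyR_le) T p.2 p.1 hp
    exact ⟨u, hu, v, hv, 4, p.2, h1, h2⟩
  · have e : T.filter (F.Mem p) = T.filter (fun w => F.act p.2 w ∧ -p.1 ≤ -F.xa w) := by
      refine Finset.filter_congr fun w hw => ?_
      have := hT w hw
      unfold Mem
      constructor
      · rintro ⟨h1, _, h3⟩; exact ⟨h3, by linarith⟩
      · rintro ⟨h3, h2⟩; exact ⟨by linarith, by linarith, h3⟩
    rw [e] at hp ⊢
    obtain ⟨u, hu, v, hv, h1, h2⟩ := F.top_two F.keyL_inj (fun w => -F.xa w)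
      (fun _ _ => F.keyL_le) T p.2 (-p.1) hp
    exact ⟨u, hu, v, hv, 5, p.2, h1, h2⟩

open Classical in
lemma cover_A (A T : Finset V) (I : Set ℝ) (m : ℝ) (hT : ∀ v ∈ T, F.xa v ≤ m ∧ m ≤ F.xb v)
    (hA : ∀ a ∈ A, (∀ x ∈ I, F.xa a ≤ x) ∨ (∀ x ∈ I, x ≤ F.xb a))
    (p : ℝ × ℝ) (hpI : p.1 ∈ I) {a i : V} (ha : A.filter (F.Mem p) = {a})
    (hi : T.filter (F.Mem p) = {i}) : F.Fr A T I a i := by
  have ha1 : a ∈ A.filter (F.Mem p) := by rw [ha]; exact Finset.mem_singleton_self a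
  have hi1 : i ∈ T.filter (F.Mem p) := by rw [hi]; exact Finset.mem_singleton_self i
  rw [Finset.mem_filter] at ha1 hi1
  have ha2 : ∀ w ∈ A, w ≠ a → ¬ F.Mem p w := by
    intro w hw hne hm
    have : w ∈ A.filter (F.Mem p) := Finset.mem_filter.2 ⟨hw, hm⟩
    rw [ha] at this
    exact hne (Finset.mem_singleton.1 this)
  have hi2 : ∀ w ∈ T, w ≠ i → ¬ F.Mem p w := by
    intro w hw hne hm
    have : w ∈ T.filter (F.Mem p) := Finset.mem_filter.2 ⟨hw, hm⟩
    rw [hi] at this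
    exact hne (Finset.mem_singleton.1 this)
  have hi3 : (F.IsTop F.keyR (fun w => w ∈ T) p.2 i) ∨ (F.IsTop F.keyL (fun w => w ∈ T) p.2 i) := by
    rcases le_or_gt m p.1 with h | h
    · left
      refine ⟨hi1.1, hi1.2.2.2, fun w hw hwy hne => F.keyR_lt ?_⟩
      by_contra hc
      exact hi2 w hw hne ⟨(hT w hw).1.trans h, hi1.2.2.1.trans (not_lt.1 hc), hwy⟩
    · right
      refine ⟨hi1.1, hi1.2.2.2, fun w hw hwy hne => F.keyL_lt ?_⟩
      by_contra hc
      have h1 := hi1.2.1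
      exact hi2 w hw hne ⟨by linarith, h.le.trans (hT w hw).2, hwy⟩
  rcases hA a ha1.1 with hl | hr
  · have h3 : F.IsTop F.keyR (fun w => w ∈ A ∧ ∀ x ∈ I, F.xa w ≤ x) p.2 a := by
      refine ⟨⟨ha1.1, hl⟩, ha1.2.2.2, fun w hw hwy hne => F.keyR_lt ?_⟩
      by_contra hc
      exact ha2 w hw.1 hne ⟨hw.2 _ hpI, ha1.2.2.1.trans (not_lt.1 hc), hwy⟩
    rcases hi3 with h4 | h4
    · exact ⟨0, p.2, h3, h4⟩
    · exact ⟨1, p.2, h3, h4⟩
  · have h3 : F.IsTop F.keyL (fun w => w ∈ A ∧ ∀ x ∈ I, x ≤ F.xb w) p.2 a := by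
      refine ⟨⟨ha1.1, hr⟩, ha1.2.2.2, fun w hw hwy hne => F.keyL_lt ?_⟩
      by_contra hc
      have h1 := ha1.2.1
      exact ha2 w hw.1 hne ⟨by linarith, hw.2 _ hpI, hwy⟩
    rcases hi3 with h4 | h4
    · exact ⟨2, p.2, h3, h4⟩
    · exact ⟨3, p.2, h3, h4⟩

end Fam

end Pool.Agent.K4H79.LC
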